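import Pool.Agent.W295.NL.Stm

set_option autoImplicit false

namespace Pool.Agent.W295.NL

def PP {Q : Type} (L : Q → Q → Q) (n : ℕ) : Prop := Bip L n ∨ Mob L n

theorem cyc_conj {Q Q₂ : Type} (L : Q → Q → Q) (L₂ : Q₂ → Q₂ → Q₂) (e : Q ≃ Q₂)
    (he : ∀ x y, e (L x y) = L₂ (e x) (e y)) {n : ℕ} {X : Fin 3 → ℕ → Q₂} {κ : ℕ → Fin 3}
    (h : Cyc L₂ n X κ) : Cyc L n (fun a t => e.symm (X a t)) κ where
  per a t := by simp only [h.per]
  kper := h.kper
  sym t := by
    apply e.injective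
    rw [he]
    simp [h.sym]
  kne := h.kne
  edge t := by simp only [h.edge]

theorem PP_conj {Q Q₂ : Type} (L : Q → Q → Q) (L₂ : Q₂ → Q₂ → Q₂) (e : Q ≃ Q₂)
    (he : ∀ x y, e (L x y) = L₂ (e x) (e y)) {n : ℕ} (h : PP L₂ n) : PP L n := by
  rcases h with ⟨X, κ, hc, hb⟩ | ⟨hn, hn0, X, κ, hc, hk, hb⟩
  · exact Or.inl ⟨_, κ, cyc_conj L L₂ e he hc, fun a t t' h1 h2 => hb a t t' (e.symm.injective h1) h2⟩
  · exact Or.inr ⟨hn, hn0, _, κ, cyc_conj L L₂ e he hc, hk,
      fun a t t' h1 => hb a t t' (e.symm.injective h1)⟩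

theorem bip_triv {Q : Type} (L : Q → Q → Q) [Subsingleton Q] [Nonempty Q] : Bip L 1 := by
  obtain ⟨x⟩ := ‹Nonempty Q›
  refine ⟨fun _ _ => x, fun t => if t % 2 = 0 then 0 else 1, ⟨?_, ?_, ?_, ?_, ?_⟩, ?_⟩
  · intro a t; rfl
  · intro t
    have : (t + 2 * 1) % 2 = t % 2 := by omega
    simp only [this]
  · intro t; exact Subsingleton.elim _ _
  · intro t
    rcases Nat.mod_two_eq_zero_or_one t with h | h
    · have h2 : (t + 1) % 2 = 1 := by omega
      simp [h, h2]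
    · have h2 : (t + 1) % 2 = 0 := by omega
      simp [h, h2]
  · intro t; rfl
  · intro a t t' _ h
    simpa using h

theorem ext_two (hBG : S_BG) (hMG : S_MG) (hG2M : S_G2M) (hG2B : S_G2B)
    {Q : Type} (L : Q → Q → Q) (n : ℕ) (hn : 0 < n) (h : PP L n) (f : Q → Q → ZMod 2) :
    PP (Ext L 2 f) (2 * n) := by
  have hG : Gen L n := by
    rcases h with h | h
    · exact hBG Q L n hn h
    · exact hMG Q L n h
  obtain ⟨X, κ, h, hc, hh, hcl⟩ := hG
  -- edge values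
  let A : ℕ → ZMod 2 := fun t =>
    Nat.rec (motive := fun _ => ZMod 2) 0 (fun t a => -(a + h t + f (X 0 t) (X 1 t))) t
  have hA : ∀ t, A (t + 1) = -(A t + h t + f (X 0 t) (X 1 t)) := fun t => rfl
  have hA1 : ∀ t, A t + A (t + 1) + h t + f (X 0 t) (X 1 t) = 0 := by
    intro t
    rw [hA]
    ring
  have hd : ∀ t, A (t + 2 * n) = A t + A (2 * n) := by
    intro t
    induction t with
    | zero => simp [show A 0 = 0 from rfl]
    | succ t ih =>
      have e1 : t + 1 + 2 * n = (t + 2 * n) + 1 := by ring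
      rw [e1, hA, hA, ih, hh, hc.per, hc.per]
      generalize A (2 * n) = d
      generalize A t = a
      generalize h t = b
      generalize f (X 0 t) (X 1 t) = c
      revert a b c d
      decide
  have hcase : A (2 * n) = 0 ∨ A (2 * n) = 1 := by
    generalize A (2 * n) = d
    revert d
    decide
  rcases hcase with h0 | h1
  · left
    refine hG2B Q L n hn X κ h ⟨hc, hh, hcl⟩ f A hA1 ?_
    intro t
    rw [hd, h0, add_zero]
  · right
    refine hG2M Q L n hn X κ h ⟨hc, hh, hcl⟩ f A hA1 ?_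
    intro t
    rw [hd, h1]

theorem ext_odd (hOB : S_OB) (hOM : S_OM) (hAX : S_AX)
    {Q : Type} (L : Q → Q → Q) (n q : ℕ) (hn : 0 < n) (hq : Odd q) (h : PP L n)
    (f : Q → Q → ZMod q) : PP (Ext L q f) (n * q) := by
  rcases h with h | ⟨hn2, hn0, X, κ, hc, hk, hcl⟩
  · exact Or.inl (hOB Q L n q hn hq h f)
  · right
    obtain ⟨A, hA1, hA2⟩ := hAX n q hn2 hn0 hq κ (fun t => f (X 0 t) (X 1 t)) hk
      (fun t => by simp only [hc.per])
    exact hOM Q L n q hn2 hn0 hq X κ hc hk hcl f A hA1 hA2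

theorem ext_prime (hBG : S_BG) (hMG : S_MG) (hG2M : S_G2M) (hG2B : S_G2B)
    (hOB : S_OB) (hOM : S_OM) (hAX : S_AX)
    {Q : Type} (L : Q → Q → Q) (n p : ℕ) (hn : 0 < n) (hp : p.Prime) (h : PP L n)
    (f : Q → Q → ZMod p) : PP (Ext L p f) (n * p) := by
  rcases hp.eq_two_or_odd' with h2 | h2
  · subst h2
    have := ext_two hBG hMG hG2M hG2B L n hn h f
    rwa [mul_comm] at this
  · exact ext_odd hOB hOM hAX L n p hn h2 h f

theorem ind (hBG : S_BG) (hMG : S_MG) (hG2M : S_G2M) (hG2B : S_G2B)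
    (hOB : S_OB) (hOM : S_OM) (hAX : S_AX) (hPR : S_PR) (hQU : S_QU) (hDES : S_DES)
    {Q' : Type} [Finite Q'] [Nonempty Q'] (L' : Q' → Q' → Q') (hL' : IsLatin L')
    (hP : PP L' (Nat.card Q')) :
    ∀ (k : ℕ) (Q : Type) [Finite Q] (L : Q → Q → Q) (φ : Q → Q'), Nat.card Q = k → IsLatin L →
      HomC L L' φ → PP L (Nat.card Q) := by
  intro k
  induction k using Nat.strong_induction_on with
  | _ k ih =>
    intro Q _ L φ hk hL hφ
    by_cases hinj : Function.Injective φ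
    · have e := Equiv.ofBijective φ ⟨hinj, hφ.2.1⟩
      have hcard : Nat.card Q = Nat.card Q' :=
        Nat.card_congr (Equiv.ofBijective φ ⟨hinj, hφ.2.1⟩)
      rw [hcard]
      exact PP_conj L L' (Equiv.ofBijective φ ⟨hinj, hφ.2.1⟩) hφ.1 hP
    · simp only [Function.Injective, not_forall] at hinj
      obtain ⟨x, x', hxx, hne⟩ := hinj
      obtain ⟨z, hz, hzx⟩ := hφ.2.2 x x' hxx
      have hzid : z ≠ id := by
        rintro rfl
        exact hne (by simpa using hzx)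
      obtain ⟨p, ζ, hp, hζ, hζid, hζp, hζφ⟩ := hPR Q L hL Q' L' φ hL' hφ.1 z hz hzid
        ⟨x, by rw [hzx, hxx]⟩
      obtain ⟨Q₁, L₁, f, e, hfin, hL₁, he, heζ⟩ := hQU Q L hL p ζ hp hζ hζid hζp
      have hdes := hDES Q L Q' L' φ hL hφ Q₁ L₁ p f e ζ hp hζ hL₁ he heζ hζφ
      have hcard : Nat.card Q = Nat.card Q₁ * p := by
        rw [Nat.card_congr e, Nat.card_prod, Nat.card_zmod]
      have hne1 : Nonempty Q₁ := by
        obtain ⟨y⟩ := ‹Nonempty Q'›
        obtain ⟨u, _⟩ := hφ.2.1 y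
        exact ⟨(e u).1⟩
      have hpos : 0 < Nat.card Q₁ := Nat.card_pos
      have hlt : Nat.card Q₁ < k := by
        rw [← hk, hcard]
        have := hp.two_le
        nlinarith
      have h1 := ih (Nat.card Q₁) hlt Q₁ L₁ _ rfl hL₁ hdes
      rw [hcard]
      exact PP_conj L _ e he (ext_prime hBG hMG hG2M hG2B hOB hOM hAX L₁ _ p hpos hp h1 f)

end Pool.Agent.W295.NL
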