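import Pool.Agent.W295.NL.Asm

set_option autoImplicit false

namespace Pool.Agent.W295.NL

/-- Two transversals of the square `M`, meeting row `r` in the columns `σ r` and `τ r`, such that
`σ⁻¹ τ` is transitive on the rows. -/
def CyclicPair {Q : Type} (M : Q → Q → Q) : Prop :=
  ∃ σ τ : Equiv.Perm Q, Function.Bijective (fun r => M r (σ r)) ∧
    Function.Bijective (fun r => M r (τ r)) ∧
    ∃ r₀ : Q, ∀ r, ∃ k : ℕ, ((σ⁻¹ * τ) ^ k) r₀ = r

/-- The class of Latin squares generated by the ones with a cyclic pair of transversals under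
extensions with central kernel. -/
inductive Cls : ∀ {Q : Type}, (Q → Q → Q) → Prop
  | base {Q : Type} (M : Q → Q → Q) : IsLatin M → CyclicPair M → Cls M
  | ext {Q Q' : Type} (L : Q → Q → Q) (L' : Q' → Q' → Q') (φ : Q → Q') : IsLatin L →
      HomC L L' φ → Cls L' → Cls L

theorem Cls.isLatin {Q : Type} {L : Q → Q → Q} (h : Cls L) : IsLatin L := by
  cases h with
  | base _ h _ => exact h
  | ext _ _ _ h _ _ => exact h

theorem Cls.nonempty {Q : Type} {L : Q → Q → Q} (h : Cls L) : Nonempty Q := by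
  induction h with
  | base _ _ h =>
    obtain ⟨_, _, _, _, r, _⟩ := h
    exact ⟨r⟩
  | ext _ _ _ _ h _ ih =>
    obtain ⟨y⟩ := ih
    obtain ⟨x, _⟩ := h.2.1 y
    exact ⟨x⟩

theorem fin3 : ∀ a : Fin 3, a = 0 ∨ a = 1 ∨ a = 2 := by decide

theorem cyclic_bip {Q : Type} [Finite Q] (M : Q → Q → Q) (h : CyclicPair M) :
    Bip M (Nat.card Q) := by
  obtain ⟨σ, τ, hσ, hτ, r₀, hr⟩ := h
  set n := Nat.card Q with hn
  set ρ := σ⁻¹ * τ with hρ
  have hne : Nonempty Q := ⟨r₀⟩
  have hpos : 0 < n := Nat.card_pos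
  -- the powers
  have hper : Function.IsPeriodicPt (fun x => ρ x) (Function.minimalPeriod (fun x => ρ x) r₀) r₀ :=
    Function.isPeriodicPt_minimalPeriod _ _
  have hpow : ∀ k : ℕ, ((ρ ^ k) r₀) = (fun x => ρ x)^[k] r₀ := by
    intro k
    exact congrFun (Equiv.Perm.coe_pow ρ k) r₀ |>.trans rfl
  have hmin : Function.minimalPeriod (fun x => ρ x) r₀ = n := by
    set N := Function.minimalPeriod (fun x => ρ x) r₀ with hN
    have hNpos : 0 < N := by
      apply Function.minimalPeriod_pos_of_mem_periodicPts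
      have : ρ ^ (orderOf ρ) = 1 := pow_orderOf_eq_one ρ
      refine ⟨orderOf ρ, orderOf_pos ρ, ?_⟩
      change (fun x => ρ x)^[orderOf ρ] r₀ = r₀
      rw [← hpow, this]
      rfl
    have hb : Function.Bijective (fun i : Fin N => (ρ ^ (i : ℕ)) r₀) := by
      constructor
      · intro i j hij
        simp only [hpow] at hij
        have := (Function.iterate_eq_iterate_iff_of_lt_minimalPeriod i.2 j.2).1 hij
        exact Fin.ext this
      · intro r
        obtain ⟨k, hk⟩ := hr r
        refine ⟨⟨k % N, Nat.mod_lt _ hNpos⟩, ?_⟩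
        simp only [hpow] at hk ⊢
        rw [← hk]
        exact Function.iterate_mod_minimalPeriod_eq
    have := Nat.card_congr (Equiv.ofBijective _ hb)
    rw [Nat.card_eq_fintype_card, Fintype.card_fin] at this
    rw [this]
  have hinj : ∀ i j : ℕ, (ρ ^ i) r₀ = (ρ ^ j) r₀ → i ≡ j [MOD n] := by
    intro i j hij
    simp only [hpow] at hij
    rw [← Function.iterate_mod_minimalPeriod_eq (n := i),
      ← Function.iterate_mod_minimalPeriod_eq (n := j), hmin] at hij
    exact (Function.iterate_eq_iterate_iff_of_lt_minimalPeriod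
      (by rw [hmin]; exact Nat.mod_lt _ hpos) (by rw [hmin]; exact Nat.mod_lt _ hpos)).1 hij
  have hperr : ∀ i : ℕ, (ρ ^ (i + n)) r₀ = (ρ ^ i) r₀ := by
    intro i
    simp only [hpow]
    rw [Function.iterate_add_apply]
    congr 1
    rw [← hmin]
    exact hper
  let rw' : ℕ → Q := fun t => (ρ ^ (t / 2)) r₀
  let cl : ℕ → Q := fun t => if t % 2 = 0 then σ ((ρ ^ (t / 2)) r₀) else τ ((ρ ^ (t / 2)) r₀)
  have hrp : ∀ t, rw' (t + 2 * n) = rw' t := by
    intro t
    have : (t + 2 * n) / 2 = t / 2 + n := by omega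
    simp only [rw', this, hperr]
  have hcp : ∀ t, cl (t + 2 * n) = cl t := by
    intro t
    have h1 : (t + 2 * n) / 2 = t / 2 + n := by omega
    have h2 : (t + 2 * n) % 2 = t % 2 := by omega
    simp only [cl, h1, h2, hperr]
  refine ⟨fun a t => if a = 0 then rw' t else if a = 1 then cl t else M (rw' t) (cl t),
    fun t => if t % 2 = 0 then 1 else 0, ⟨?_, ?_, ?_, ?_, ?_⟩, ?_⟩
  · intro a t
    simp only [hrp, hcp]
  · intro t
    have h2 : (t + 2 * n) % 2 = t % 2 := by omega
    simp only [h2]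
  · intro t
    simp
  · intro t
    rcases Nat.mod_two_eq_zero_or_one t with h | h
    · have h2 : (t + 1) % 2 = 1 := by omega
      simp [h, h2]
    · have h2 : (t + 1) % 2 = 0 := by omega
      simp [h, h2]
  · intro t
    rcases Nat.mod_two_eq_zero_or_one t with h | h
    · have h2 : (t + 1) % 2 = 1 := by omega
      have h3 : (t + 1) / 2 = t / 2 := by omega
      simp [h2, rw', h3]
    · have h2 : (t + 1) % 2 = 0 := by omega
      have h3 : (t + 1) / 2 = t / 2 + 1 := by omega
      simp only [h2, if_true, cl, h, h3, one_ne_zero, if_false]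
      rw [pow_succ', hρ]
      simp
  · intro a t t' h hpar
    have hpar' : t % 2 = t' % 2 := hpar
    have key : (ρ ^ (t / 2)) r₀ = (ρ ^ (t' / 2)) r₀ → t ≡ t' [MOD 2 * n] := by
      intro hh
      have h1 := hinj _ _ hh
      have h2 : 2 * (t / 2) ≡ 2 * (t' / 2) [MOD 2 * n] := Nat.ModEq.mul_left' 2 h1
      have h3 := Nat.ModEq.add_right (t % 2) h2
      have e1 : 2 * (t / 2) + t % 2 = t := Nat.div_add_mod t 2
      have e2 : 2 * (t' / 2) + t % 2 = t' := by rw [hpar']; exact Nat.div_add_mod t' 2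
      rwa [e1, e2] at h3
    apply key
    have ha : a = 0 ∨ a = 1 ∨ a = 2 := fin3 a
    rcases ha with rfl | rfl | rfl
    · simpa [rw'] using h
    · rcases Nat.mod_two_eq_zero_or_one t with h0 | h0
      · have h0' : t' % 2 = 0 := by omega
        simpa [cl, h0, h0'] using h
      · have h0' : t' % 2 = 1 := by omega
        simpa [cl, h0, h0'] using h
    · rcases Nat.mod_two_eq_zero_or_one t with h0 | h0
      · have h0' : t' % 2 = 0 := by omega
        have h4 : M ((ρ ^ (t / 2)) r₀) (σ ((ρ ^ (t / 2)) r₀)) =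
            M ((ρ ^ (t' / 2)) r₀) (σ ((ρ ^ (t' / 2)) r₀)) := by
          simpa [cl, rw', h0, h0'] using h
        exact hσ.1 h4
      · have h0' : t' % 2 = 1 := by omega
        have h4 : M ((ρ ^ (t / 2)) r₀) (τ ((ρ ^ (t / 2)) r₀)) =
            M ((ρ ^ (t' / 2)) r₀) (τ ((ρ ^ (t' / 2)) r₀)) := by
          simpa [cl, rw', h0, h0'] using h
        exact hτ.1 h4

theorem cls_PP (hBG : S_BG) (hMG : S_MG) (hG2M : S_G2M) (hG2B : S_G2B)
    (hOB : S_OB) (hOM : S_OM) (hAX : S_AX) (hPR : S_PR) (hQU : S_QU) (hDES : S_DES)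
    {Q : Type} {L : Q → Q → Q} (h : Cls L) : Finite Q → PP L (Nat.card Q) := by
  induction h with
  | base M hM hc =>
    intro _
    exact Or.inl (cyclic_bip M hc)
  | @ext Q Q' L L' φ hL hφ hL' ih =>
    intro _
    have hf : Finite Q' := Finite.of_surjective φ hφ.2.1
    have := hL'.nonempty
    exact ind hBG hMG hG2M hG2B hOB hOM hAX hPR hQU hDES L' hL'.isLatin (ih hf) _ Q L φ rfl hL hφ

/-- A loop: a Latin square with an identity element. -/
def IsLoop {Q : Type} (mul : Q → Q → Q) (e : Q) : Prop :=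
  IsLatin mul ∧ (∀ x, mul e x = x) ∧ ∀ x, mul x e = x

/-- `z` commutes and associates with all elements. -/
def IsCentral {Q : Type} (mul : Q → Q → Q) (z : Q) : Prop :=
  (∀ x, mul z x = mul x z) ∧ ∀ x y, mul (mul z x) y = mul z (mul x y) ∧
    mul (mul x z) y = mul x (mul z y) ∧ mul (mul x y) z = mul x (mul y z)

/-- Centrally nilpotent loops: the trivial loop, and every loop that has a surjective homomorphism
with central kernel onto a centrally nilpotent loop. -/
inductive Nilpotent : ∀ {Q : Type}, (Q → Q → Q) → Q → Prop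
  | triv {Q : Type} (mul : Q → Q → Q) (e : Q) : (∀ x, x = e) → Nilpotent mul e
  | ext {Q Q' : Type} (mul : Q → Q → Q) (e : Q) (mul' : Q' → Q' → Q') (e' : Q') (φ : Q → Q') :
      IsLoop mul e → (∀ x y, φ (mul x y) = mul' (φ x) (φ y)) → Function.Surjective φ →
      (∀ z, φ z = e' → IsCentral mul z) → Nilpotent mul' e' → Nilpotent mul e

theorem Nilpotent.isLoop {Q : Type} {mul : Q → Q → Q} {e : Q} (h : Nilpotent mul e) :
    IsLoop mul e := by
  cases h with
  | triv _ _ h =>
    have : Subsingleton Q := ⟨fun a b => (h a).trans (h b).symm⟩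
    have : Nonempty Q := ⟨e⟩
    refine ⟨⟨fun a => ⟨fun _ _ _ => Subsingleton.elim _ _, fun b => ⟨e, Subsingleton.elim _ _⟩⟩,
      fun a => ⟨fun _ _ _ => Subsingleton.elim _ _, fun b => ⟨e, Subsingleton.elim _ _⟩⟩⟩,
      fun x => Subsingleton.elim _ _, fun x => Subsingleton.elim _ _⟩
  | ext _ _ _ _ _ h => exact h

theorem Nilpotent.cls {Q : Type} {mul : Q → Q → Q} {e : Q} (h : Nilpotent mul e) :
    Cls mul := by
  induction h with
  | @triv Q mul e h =>
    have : Subsingleton Q := ⟨fun a b => (h a).trans (h b).symm⟩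
    refine Cls.base mul (Nilpotent.triv mul e h).isLoop.1 ⟨1, 1, ?_, ?_, e, fun r => ⟨0, ?_⟩⟩
    · exact ⟨fun _ _ _ => Subsingleton.elim _ _, fun b => ⟨e, Subsingleton.elim _ _⟩⟩
    · exact ⟨fun _ _ _ => Subsingleton.elim _ _, fun b => ⟨e, Subsingleton.elim _ _⟩⟩
    · exact Subsingleton.elim _ _
  | @ext Q Q' mul e mul' e' φ hl hφ hs hc hn ih =>
    refine Cls.ext mul mul' φ hl.1 ⟨hφ, hs, ?_⟩ ih
    intro x x' hx
    obtain ⟨z, hz⟩ := (hl.1.2 x).2 x'
    have hz' : mul z x = x' := hz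
    have h1 : φ z = e' := by
      apply (hn.isLoop.1.2 (φ x)).1
      change mul' (φ z) (φ x) = mul' e' (φ x)
      rw [← hφ, hz', hn.isLoop.2.1, hx]
    obtain ⟨h2, h3⟩ := hc z h1
    refine ⟨fun u => mul z u, fun u v => ⟨(h3 u v).1, ?_⟩, hz'⟩
    rw [← (h3 u v).2.1, ← h2 u, (h3 u v).1]

end Pool.Agent.W295.NL
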