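import Pool.Agent.W295.NL.Stm

set_option autoImplicit false

namespace Pool.Agent.W295.NL

/-- A surjective homomorphism of Latin squares all whose fibres have two elements has central
kernel. -/
theorem homC_of_two {Q Q' : Type} (L : Q → Q → Q) (L' : Q' → Q' → Q') (φ : Q → Q')
    (hL : IsLatin L) (hφ : ∀ x y, φ (L x y) = L' (φ x) (φ y)) (hs : Function.Surjective φ)
    (h2 : ∀ y, Nat.card {x // φ x = y} = 2) : HomC L L' φ := by
  classical
  have hother : ∀ x, ∃ x', φ x' = φ x ∧ x' ≠ x ∧ ∀ w, φ w = φ x → w = x ∨ w = x' := by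
    intro x
    have h := h2 (φ x)
    rw [Nat.card_eq_two_iff] at h
    obtain ⟨u, v, huv, hU⟩ := h
    have hmem : ∀ w : {w // φ w = φ x}, w = u ∨ w = v := by
      intro w
      have : w ∈ ({u, v} : Set {w // φ w = φ x}) := by rw [hU]; trivial
      simpa using this
    rcases hmem ⟨x, rfl⟩ with hx | hx
    · refine ⟨v.1, v.2, ?_, ?_⟩
      · intro hv
        exact huv (by rw [← hx]; exact Subtype.ext hv.symm)
      · intro w hw
        rcases hmem ⟨w, hw⟩ with h | h
        · left
          have := h.trans hx.symm
          exact congrArg Subtype.val this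
        · right
          exact congrArg Subtype.val h
    · refine ⟨u.1, u.2, ?_, ?_⟩
      · intro hv
        exact huv (by rw [← hx]; exact Subtype.ext hv)
      · intro w hw
        rcases hmem ⟨w, hw⟩ with h | h
        · right
          exact congrArg Subtype.val h
        · left
          have := h.trans hx.symm
          exact congrArg Subtype.val this
  choose z hz1 hz2 hz3 using hother
  refine ⟨hφ, hs, ?_⟩
  intro x x' hx
  rcases hz3 x x' hx.symm with h | h
  · exact ⟨id, fun u v => ⟨rfl, rfl⟩, h.symm⟩
  · refine ⟨z, ?_, h.symm⟩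
    intro u v
    constructor
    · have h1 : φ (L (z u) v) = φ (L u v) := by rw [hφ, hφ, hz1]
      rcases hz3 (L u v) _ h1 with h | h
      · exact absurd ((hL.2 v).1 h) (hz2 u)
      · exact h
    · have h1 : φ (L u (z v)) = φ (L u v) := by rw [hφ, hφ, hz1]
      rcases hz3 (L u v) _ h1 with h | h
      · exact absurd ((hL.1 u).1 h) (hz2 v)
      · exact h

end Pool.Agent.W295.NL
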