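import Mathlib

set_option autoImplicit false

/-!
Project NL (MP_aa89df_co): near transversals of centrally nilpotent loops.
A *ladder cycle*: a closed sequence of `2n` cells of a Latin square of order `n`, every row, column
and symbol being used exactly twice, consecutive cells `t, t+1` sharing their coordinate of colour
`κ (t+1)` (0 = row, 1 = column, 2 = symbol).
-/

namespace Pool.Agent.W295.NL

/-- Closed sequence of cells (index `t : ℕ`, period `2n`); `X 0 t`, `X 1 t`, `X 2 t` are row,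
column, symbol of cell `t`; `κ t` is the colour of the edge between cells `t - 1` and `t`. -/
structure Cyc {Q : Type} (L : Q → Q → Q) (n : ℕ) (X : Fin 3 → ℕ → Q) (κ : ℕ → Fin 3) : Prop where
  per : ∀ a t, X a (t + 2 * n) = X a t
  kper : ∀ t, κ (t + 2 * n) = κ t
  sym : ∀ t, X 2 t = L (X 0 t) (X 1 t)
  kne : ∀ t, κ t ≠ κ (t + 1)
  edge : ∀ t, X (κ (t + 1)) (t + 1) = X (κ (t + 1)) t

/-- Bipartite type. -/
def Bip {Q : Type} (L : Q → Q → Q) (n : ℕ) : Prop :=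
  ∃ X κ, Cyc L n X κ ∧ ∀ a t t', X a t = X a t' → t ≡ t' [MOD 2] → t ≡ t' [MOD 2 * n]

/-- Moebius ladder type. -/
def Mob {Q : Type} (L : Q → Q → Q) (n : ℕ) : Prop :=
  Even n ∧ 0 < n ∧ ∃ X κ, Cyc L n X κ ∧ (∀ t, κ (t + n) = κ t) ∧
    ∀ a t t', X a t = X a t' →
      t' ≡ t [MOD 2 * n] ∨ (a = κ (t + 1) ∧ t' ≡ t + 1 [MOD 2 * n]) ∨
      (a = κ t ∧ t' + 1 ≡ t [MOD 2 * n]) ∨
      (a ≠ κ t ∧ a ≠ κ (t + 1) ∧ t' ≡ t + n [MOD 2 * n])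

/-- Common generalisation, with a two-colouring `h` that separates the ends of every chord. -/
def Gen {Q : Type} (L : Q → Q → Q) (n : ℕ) : Prop :=
  ∃ (X : Fin 3 → ℕ → Q) (κ : ℕ → Fin 3) (h : ℕ → ZMod 2), Cyc L n X κ ∧
    (∀ t, h (t + 2 * n) = h t) ∧
    ∀ a t t', X a t = X a t' →
      t' ≡ t [MOD 2 * n] ∨ (a = κ (t + 1) ∧ t' ≡ t + 1 [MOD 2 * n]) ∨
      (a = κ t ∧ t' + 1 ≡ t [MOD 2 * n]) ∨
      (a ≠ κ t ∧ a ≠ κ (t + 1) ∧ a ≠ κ t' ∧ a ≠ κ (t' + 1) ∧ h t ≠ h t')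

/-- Central extension of a Latin square by `ZMod q` with arbitrary cocycle `f`. -/
def Ext {Q : Type} (L : Q → Q → Q) (q : ℕ) (f : Q → Q → ZMod q) :
    Q × ZMod q → Q × ZMod q → Q × ZMod q :=
  fun a b => (L a.1 b.1, a.2 + b.2 + f a.1 b.1)

/-- A partial transversal of size `k`. -/
def PT {R C S : Type} (L : R → C → S) (k : ℕ) : Prop :=
  ∃ (r : Fin k → R) (c : Fin k → C), Function.Injective r ∧ Function.Injective c ∧
    Function.Injective fun i => L (r i) (c i)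

/-- `NL-BG` -/
def S_BG : Prop := ∀ (Q : Type) (L : Q → Q → Q) (n : ℕ), 0 < n → Bip L n → Gen L n

/-- `NL-MG` -/
def S_MG : Prop := ∀ (Q : Type) (L : Q → Q → Q) (n : ℕ), Mob L n → Gen L n

/-- The data of `Gen`. -/
def GenD {Q : Type} (L : Q → Q → Q) (n : ℕ) (X : Fin 3 → ℕ → Q) (κ : ℕ → Fin 3)
    (h : ℕ → ZMod 2) : Prop :=
  Cyc L n X κ ∧ (∀ t, h (t + 2 * n) = h t) ∧
    ∀ a t t', X a t = X a t' →
      t' ≡ t [MOD 2 * n] ∨ (a = κ (t + 1) ∧ t' ≡ t + 1 [MOD 2 * n]) ∨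
      (a = κ t ∧ t' + 1 ≡ t [MOD 2 * n]) ∨
      (a ≠ κ t ∧ a ≠ κ (t + 1) ∧ a ≠ κ t' ∧ a ≠ κ (t' + 1) ∧ h t ≠ h t')

/-- `NL-G2M`: the twisted case. -/
def S_G2M : Prop := ∀ (Q : Type) (L : Q → Q → Q) (n : ℕ), 0 < n → ∀ (X : Fin 3 → ℕ → Q)
  (κ : ℕ → Fin 3) (h : ℕ → ZMod 2), GenD L n X κ h → ∀ (f : Q → Q → ZMod 2) (A : ℕ → ZMod 2),
  (∀ t, A t + A (t + 1) + h t + f (X 0 t) (X 1 t) = 0) → (∀ t, A (t + 2 * n) = A t + 1) →
  Mob (Ext L 2 f) (2 * n)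

/-- `NL-G2B`: the untwisted case. -/
def S_G2B : Prop := ∀ (Q : Type) (L : Q → Q → Q) (n : ℕ), 0 < n → ∀ (X : Fin 3 → ℕ → Q)
  (κ : ℕ → Fin 3) (h : ℕ → ZMod 2), GenD L n X κ h → ∀ (f : Q → Q → ZMod 2) (A : ℕ → ZMod 2),
  (∀ t, A t + A (t + 1) + h t + f (X 0 t) (X 1 t) = 0) → (∀ t, A (t + 2 * n) = A t) →
  Bip (Ext L 2 f) (2 * n)

/-- `NL-OB` -/
def S_OB : Prop := ∀ (Q : Type) (L : Q → Q → Q) (n q : ℕ), 0 < n → Odd q → Bip L n →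
  ∀ f : Q → Q → ZMod q, Bip (Ext L q f) (n * q)

/-- `NL-OM` (given the edge values `A`) -/
def S_OM : Prop := ∀ (Q : Type) (L : Q → Q → Q) (n q : ℕ), Even n → 0 < n → Odd q →
  ∀ (X : Fin 3 → ℕ → Q) (κ : ℕ → Fin 3), Cyc L n X κ → (∀ t, κ (t + n) = κ t) →
  (∀ a t t', X a t = X a t' →
      t' ≡ t [MOD 2 * n] ∨ (a = κ (t + 1) ∧ t' ≡ t + 1 [MOD 2 * n]) ∨
      (a = κ t ∧ t' + 1 ≡ t [MOD 2 * n]) ∨
      (a ≠ κ t ∧ a ≠ κ (t + 1) ∧ t' ≡ t + n [MOD 2 * n])) →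
  ∀ (f : Q → Q → ZMod q) (A : ℕ → ZMod q),
  (∀ t, A (t + 2 * n) = A t + (if κ t = 2 then -2 else 1)) →
  (∀ t, A (t + n * q) + A (t + 1 + n * q) + f (X 0 (t + n)) (X 1 (t + n)) =
    A t + A (t + 1) + f (X 0 t) (X 1 t)) →
  Mob (Ext L q f) (n * q)

/-- `NL-AX`: existence of the edge values of `NL-OM`. -/
def S_AX : Prop := ∀ (n q : ℕ), Even n → 0 < n → Odd q → ∀ (κ : ℕ → Fin 3) (F : ℕ → ZMod q),
  (∀ t, κ (t + n) = κ t) → (∀ t, F (t + 2 * n) = F t) → ∃ A : ℕ → ZMod q,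
  (∀ t, A (t + 2 * n) = A t + (if κ t = 2 then -2 else 1)) ∧
  (∀ t, A (t + n * q) + A (t + 1 + n * q) + F (t + n) = A t + A (t + 1) + F t)

/-- `NL-TB` -/
def S_TB : Prop := ∀ (Q : Type) (L : Q → Q → Q) (n : ℕ), 0 < n → Bip L n → PT L n

/-- `NL-TM` -/
def S_TM : Prop := ∀ (Q : Type) (L : Q → Q → Q) (n : ℕ), Mob L n → PT L (n - 1)

/-- Latin square on a set. -/
def IsLatin {Q : Type} (L : Q → Q → Q) : Prop :=
  (∀ a, Function.Bijective (L a)) ∧ ∀ b, Function.Bijective fun a => L a b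

/-- A central translation of `L`. -/
def Central {Q : Type} (L : Q → Q → Q) (z : Q → Q) : Prop :=
  ∀ u v, L (z u) v = z (L u v) ∧ L u (z v) = z (L u v)

/-- `NL-PR`: two points in the same class of a homomorphism with central kernel that are different
give a central translation of prime order in the kernel. -/
def S_PR : Prop := ∀ (Q : Type) [Finite Q] (L : Q → Q → Q), IsLatin L →
  ∀ (Q' : Type) (L' : Q' → Q' → Q') (φ : Q → Q'), IsLatin L' →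
  (∀ x y, φ (L x y) = L' (φ x) (φ y)) →
  ∀ z : Q → Q, Central L z → z ≠ id → (∃ x, φ (z x) = φ x) →
  ∃ (p : ℕ) (ζ : Q → Q), p.Prime ∧ Central L ζ ∧ ζ ≠ id ∧ ζ^[p] = id ∧ ∀ x, φ (ζ x) = φ x

/-- `NL-QU`: the quotient by a central translation of prime order, as an extension. -/
def S_QU : Prop := ∀ (Q : Type) [Finite Q] (L : Q → Q → Q), IsLatin L →
  ∀ (p : ℕ) (ζ : Q → Q), p.Prime → Central L ζ → ζ ≠ id → ζ^[p] = id →
  ∃ (Q₁ : Type) (L₁ : Q₁ → Q₁ → Q₁) (f : Q₁ → Q₁ → ZMod p) (e : Q ≃ Q₁ × ZMod p),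
    Finite Q₁ ∧ IsLatin L₁ ∧ (∀ x y, e (L x y) = Ext L₁ p f (e x) (e y)) ∧
    (∀ x, e (ζ x) = ((e x).1, (e x).2 + 1))

/-- A surjective homomorphism with central kernel. -/
def HomC {Q Q' : Type} (L : Q → Q → Q) (L' : Q' → Q' → Q') (φ : Q → Q') : Prop :=
  (∀ x y, φ (L x y) = L' (φ x) (φ y)) ∧ Function.Surjective φ ∧
    ∀ x x', φ x = φ x' → ∃ z : Q → Q, Central L z ∧ z x = x'

/-- `NL-DES`: a homomorphism with central kernel descends to the quotient by a central translation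
in its kernel. -/
def S_DES : Prop := ∀ (Q : Type) (L : Q → Q → Q) (Q' : Type) (L' : Q' → Q' → Q') (φ : Q → Q'),
  IsLatin L → HomC L L' φ →
  ∀ (Q₁ : Type) (L₁ : Q₁ → Q₁ → Q₁) (p : ℕ) (f : Q₁ → Q₁ → ZMod p) (e : Q ≃ Q₁ × ZMod p)
    (ζ : Q → Q), p.Prime → Central L ζ → IsLatin L₁ →
    (∀ x y, e (L x y) = Ext L₁ p f (e x) (e y)) →
    (∀ x, e (ζ x) = ((e x).1, (e x).2 + 1)) → (∀ x, φ (ζ x) = φ x) →
    HomC L₁ L' (fun a => φ (e.symm (a, 0)))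

end Pool.Agent.W295.NL
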