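import Pool.Agent.W295.NL.Cls
import Pool.Agent.W295.NL.Two
import Pool.Agent.W404.NL.BG
import Pool.Agent.W720.NL.MG
import Pool.Agent.W985.NL.G2M
import Pool.Agent.W400.NL.G2B
import Pool.Agent.W94.NL.OB
import Pool.Agent.W449.NL.OM
import Pool.Agent.W15.NL.AX
import Pool.Agent.W858.NL.PR
import Pool.Agent.W509.NL.QU
import Pool.Agent.W138.NL.DES
import Pool.Agent.W35.NL.TB
import Pool.Agent.W214.NL.TM

set_option autoImplicit false

namespace Pool.Agent.W295.NL

theorem PP_of_cls {Q : Type} [Finite Q] {L : Q → Q → Q} (h : Cls L) : PP L (Nat.card Q) :=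
  cls_PP W404.NL.BG.main W720.NL.MG.main W985.NL.G2M.main W400.NL.G2B.main W94.NL.OB.main
    W449.NL.OM.main W15.NL.AX.main W858.NL.PR.main W509.NL.QU.main W138.NL.DES.main h ‹_›

theorem near_of_cls {Q : Type} [Finite Q] {L : Q → Q → Q} (h : Cls L) :
    PT L (Nat.card Q - 1) ∧ (Odd (Nat.card Q) → PT L (Nat.card Q)) := by
  have hne := h.nonempty
  have hpos : 0 < Nat.card Q := Nat.card_pos
  rcases PP_of_cls h with h | h
  · obtain ⟨r, c, h1, h2, h3⟩ := W35.NL.TB.main Q L _ hpos h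
    refine ⟨?_, fun _ => ⟨r, c, h1, h2, h3⟩⟩
    have hle : Nat.card Q - 1 ≤ Nat.card Q := Nat.sub_le _ _
    exact ⟨fun i => r (Fin.castLE hle i), fun i => c (Fin.castLE hle i),
      h1.comp (Fin.castLE_injective hle), h2.comp (Fin.castLE_injective hle),
      h3.comp (Fin.castLE_injective hle)⟩
  · refine ⟨W214.NL.TM.main Q L _ h, fun ho => ?_⟩
    exact absurd h.1 (Nat.not_even_iff_odd.2 ho)

theorem PT_iso {R C S Q : Type} (L : R → C → S) (M : Q → Q → Q) (α : R ≃ Q) (β : C ≃ Q)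
    (γ : S ≃ Q) (h : ∀ r c, γ (L r c) = M (α r) (β c)) {k : ℕ} (hk : PT M k) : PT L k := by
  obtain ⟨r, c, h1, h2, h3⟩ := hk
  refine ⟨fun i => α.symm (r i), fun i => β.symm (c i), α.symm.injective.comp h1,
    β.symm.injective.comp h2, ?_⟩
  intro i j hij
  apply h3
  have := congrArg γ hij
  simpa [h] using this

end Pool.Agent.W295.NL
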