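import Pool.Agent.W295.NL.Stm

set_option autoImplicit false

/-!
Project NL, part D (Rodney's duplex conjecture, MP_043404_co and MP_dfefb2_co).
-/

namespace Pool.Agent.W295.NL

/-- A duplex (2-plex) of the square `L`. -/
def HasDuplex {Q : Type} (L : Q → Q → Q) : Prop :=
  ∃ D : Set (Q × Q), (∀ r, {p | p ∈ D ∧ p.1 = r}.ncard = 2) ∧
    (∀ c, {p | p ∈ D ∧ p.2 = c}.ncard = 2) ∧ ∀ s, {p | p ∈ D ∧ L p.1 p.2 = s}.ncard = 2

/-- `NL-DB` -/
def S_DB : Prop := ∀ (Q : Type) [Finite Q] (L : Q → Q → Q), 2 ≤ Nat.card Q →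
  Bip L (Nat.card Q) → HasDuplex L

/-- `NL-DM` -/
def S_DM : Prop := ∀ (Q : Type) [Finite Q] (L : Q → Q → Q), 2 ≤ Nat.card Q →
  Mob L (Nat.card Q) → HasDuplex L

/-- `NL-D2` -/
def S_D2 : Prop := ∀ (Q Q' : Type) [Finite Q] (L : Q → Q → Q) (L' : Q' → Q' → Q') (φ : Q → Q'),
  IsLatin L → IsLatin L' → (∀ x y, φ (L x y) = L' (φ x) (φ y)) → Function.Surjective φ →
  (∀ y, Nat.card {x // φ x = y} = 2) → HasDuplex L' → HasDuplex L

/-- The block of `L` over the rows mapped to `a` and the columns mapped to `b` is isotopic to the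
Cayley table of a finite group of odd order. -/
def OddBlock {Q Q' : Type} (L : Q → Q → Q) (L' : Q' → Q' → Q') (φ : Q → Q') (a b : Q') : Prop :=
  ∃ (G : Type) (_ : Group G) (_ : Finite G) (α β γ : Q → G), Odd (Nat.card G) ∧
    Set.BijOn α {x | φ x = a} Set.univ ∧ Set.BijOn β {x | φ x = b} Set.univ ∧
    Set.BijOn γ {x | φ x = L' a b} Set.univ ∧
    ∀ x y, φ x = a → φ y = b → γ (L x y) = α x * β y

/-- `NL-DO` -/
def S_DO : Prop := ∀ (Q Q' : Type) [Finite Q] (L : Q → Q → Q) (L' : Q' → Q' → Q') (φ : Q → Q'),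
  IsLatin L → IsLatin L' → (∀ x y, φ (L x y) = L' (φ x) (φ y)) → Function.Surjective φ →
  (∀ a b, OddBlock L L' φ a b) → HasDuplex L' → HasDuplex L

end Pool.Agent.W295.NL
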