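import Pool.Agent.W295.NL.Fin
import Pool.Agent.W295.NL.StmD
import Pool.Agent.W881.NL.DB
import Pool.Agent.W280.NL.DM
import Pool.Agent.W387.NL.D2
import Pool.Agent.W166.NL.DO

set_option autoImplicit false

namespace Pool.Agent.W295.NL

theorem duplex_of_cls {Q : Type} [Finite Q] {L : Q → Q → Q} (h : Cls L) (h2 : 2 ≤ Nat.card Q) :
    HasDuplex L := by
  rcases PP_of_cls h with h | h
  · exact W881.NL.DB.main Q L h2 h
  · exact W280.NL.DM.main Q L h2 h

/-- The class of Latin squares generated, from those with a duplex and from the centrally nilpotent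
loops of order at least two, by extensions with fibres of size two and by extensions whose blocks
are isotopic to groups of odd order. -/
inductive DTower : ∀ {Q : Type}, (Q → Q → Q) → Prop
  | base {Q : Type} (M : Q → Q → Q) : IsLatin M → HasDuplex M → DTower M
  | nilp {Q : Type} (mul : Q → Q → Q) (e : Q) : 2 ≤ Nat.card Q → Nilpotent mul e → DTower mul
  | two {Q Q' : Type} (L : Q → Q → Q) (L' : Q' → Q' → Q') (φ : Q → Q') : IsLatin L →
      (∀ x y, φ (L x y) = L' (φ x) (φ y)) → Function.Surjective φ →
      (∀ y, Nat.card {x // φ x = y} = 2) → DTower L' → DTower L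
  | odd {Q Q' : Type} (L : Q → Q → Q) (L' : Q' → Q' → Q') (φ : Q → Q') : IsLatin L →
      (∀ x y, φ (L x y) = L' (φ x) (φ y)) → Function.Surjective φ →
      (∀ a b, OddBlock L L' φ a b) → DTower L' → DTower L

theorem DTower.isLatin {Q : Type} {L : Q → Q → Q} (h : DTower L) : IsLatin L := by
  cases h with
  | base _ h _ => exact h
  | nilp _ _ _ h => exact h.isLoop.1
  | two _ _ _ h _ _ _ _ => exact h
  | odd _ _ _ h _ _ _ _ => exact h

theorem DTower.hasDuplex {Q : Type} {L : Q → Q → Q} (h : DTower L) : Finite Q → HasDuplex L := by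
  induction h with
  | base _ _ h => exact fun _ => h
  | nilp mul e h1 h2 => exact fun _ => duplex_of_cls h2.cls h1
  | @two Q Q' L L' φ h1 h2 h3 h4 h5 ih =>
    intro hf
    have : Finite Q' := Finite.of_surjective φ h3
    exact W387.NL.D2.main Q Q' L L' φ h1 h5.isLatin h2 h3 h4 (ih this)
  | @odd Q Q' L L' φ h1 h2 h3 h4 h5 ih =>
    intro hf
    have : Finite Q' := Finite.of_surjective φ h3
    exact W166.NL.DO.main Q Q' L L' φ h1 h5.isLatin h2 h3 h4 (ih this)

end Pool.Agent.W295.NL
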